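import Pool.Agent.Helper32_NJ.Stmts

/-!
# Normalisation of the classes by a translate
-/

set_option autoImplicit false

namespace Pool.Agent.NJ.H93

open Pool.Agent.NJ

section

variable {p : ℕ} [hp : Fact p.Prime]

theorem val_ndvd {a : ℤ} (h : ¬ (p : ℤ) ∣ a) : padicValInt p a = 0 := by
  by_contra h1
  have h2 : (p : ℤ) ^ 1 ∣ a := (padicValInt_dvd_iff 1 a).2 (Or.inr (by omega))
  rw [pow_one] at h2
  exact h h2

theorem val_sqf {a : ℤ} (ha : Squarefree a) (h : (p : ℤ) ∣ a) : padicValInt p a = 1 := by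
  have ha0 : a ≠ 0 := ha.ne_zero
  have h1 : 1 ≤ padicValInt p a := by
    have h2 : (p : ℤ) ^ 1 ∣ a := by rwa [pow_one]
    exact ((padicValInt_dvd_iff 1 a).1 h2).resolve_left ha0
  have h3 : ¬ 2 ≤ padicValInt p a := by
    intro h4
    have h5 : (p : ℤ) ^ 2 ∣ a := (padicValInt_dvd_iff 2 a).2 (Or.inr h4)
    rw [pow_two] at h5
    have h6 := ha p h5
    exact hp.out.one_lt.ne' (by simpa using Int.isUnit_iff_natAbs_eq.1 h6)
  omega

theorem val_eq {a : ℤ} {n : ℕ} (h : (p : ℤ) ^ n ∣ a) (h' : ¬ (p : ℤ) ^ (n + 1) ∣ a) :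
    padicValInt p a = n := by
  have ha0 : a ≠ 0 := fun h0 => h' (h0 ▸ dvd_zero _)
  have h1 := ((padicValInt_dvd_iff n a).1 h).resolve_left ha0
  have h2 : ¬ n + 1 ≤ padicValInt p a := fun h3 => h' ((padicValInt_dvd_iff (n + 1) a).2 (Or.inr h3))
  omega

theorem val_square {a : ℤ} (ha : a ≠ 0) (h : IsSquare a) : ∃ m, padicValInt p a = 2 * m := by
  obtain ⟨b, rfl⟩ := h
  have hb : b ≠ 0 := fun h => ha (by rw [h, zero_mul])
  exact ⟨padicValInt p b, by rw [padicValInt.mul hb hb]; ring⟩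

/-- Parity of the class of a translate. -/
theorem val_translate {d f t : ℤ} (hd : d ≠ 0) (hf : Squarefree f) (ht : t ≠ 0)
    (hs : IsSquare (d * f * t)) (hpar : ∃ m, padicValInt p d + padicValInt p t = 2 * m) :
    ¬ (p : ℤ) ∣ f := by
  intro h
  have h1 := val_sqf hf h
  obtain ⟨m, hm⟩ := val_square (p := p) (mul_ne_zero (mul_ne_zero hd hf.ne_zero) ht) hs
  obtain ⟨m', hm'⟩ := hpar
  rw [padicValInt.mul (mul_ne_zero hd hf.ne_zero) ht, padicValInt.mul hd hf.ne_zero, h1] at hm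
  omega

end

theorem cls_sqf {e₂ e₃ d₁ d₂ : ℤ} (h : Cls e₂ e₃ d₁ d₂) : Squarefree d₁ ∧ Squarefree d₂ := by
  obtain ⟨r, s, w, A, B, h⟩ := h
  exact ⟨h.sq1, h.sq2⟩

/-- NRM. -/
theorem nRM (hT : TRNStmt) : NRMStmt := by
  intro e₂ e₃ p hp hne h2 h3 h1 h1' hyp d₁ d₂ hcl
  have : Fact p.Prime := ⟨hp⟩
  have he2 : e₂ ≠ 0 := fun h0 => h3 (h0 ▸ dvd_zero _)
  have he3 : e₃ ≠ 0 := fun h0 => h1' (h0 ▸ dvd_zero _)
  have v2 : padicValInt p e₂ = 2 := val_eq h2 h3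
  have v3 : padicValInt p e₃ = 1 := val_eq (n := 1) (by rwa [pow_one]) h1'
  have h2p : (p : ℤ) ∣ e₂ := (dvd_pow_self (p : ℤ) two_ne_zero).trans h2
  have hd0 : e₂ - e₃ ≠ 0 := sub_ne_zero.2 hne
  have v23 : padicValInt p (e₂ - e₃) = 1 := by
    refine val_eq (n := 1) (by rw [pow_one]; exact dvd_sub h2p h1) ?_
    intro h
    exact h1' ((dvd_sub_right h2).1 h)
  have v32 : padicValInt p (e₃ - e₂) = 1 := by
    refine val_eq (n := 1) (by rw [pow_one]; exact dvd_sub h1 h2p) ?_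
    intro h
    exact h1' ((dvd_sub_left h2).1 h)
  obtain ⟨s1, s2⟩ := cls_sqf hcl
  obtain ⟨⟨f₁, f₂, hf, q1, q2⟩, ⟨g₁, g₂, hg, q3, q4⟩, ⟨k₁, k₂, hk, q5, q6⟩⟩ :=
    hT e₂ e₃ d₁ d₂ he2 he3 hne hcl
  have w1 : padicValInt p (e₂ * e₃) = 3 := by rw [padicValInt.mul he2 he3, v2, v3]
  have w2 : padicValInt p (-e₂) = 2 := by
    refine val_eq (n := 2) (by rwa [dvd_neg]) (by rwa [dvd_neg])
  have w3 : padicValInt p (e₂ * (e₂ - e₃)) = 3 := by rw [padicValInt.mul he2 hd0, v2, v23]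
  by_cases c1 : (p : ℤ) ∣ d₁ <;> by_cases c2 : (p : ℤ) ∣ d₂
  · -- both divisible: third translate
    have a1 := val_sqf s1 c1
    have a2 := val_sqf s2 c2
    obtain ⟨t1, t2⟩ := cls_sqf hk
    have b1 := val_translate (p := p) s1.ne_zero t1 he3 q5 ⟨1, by rw [a1, v3]⟩
    have b2 := val_translate (p := p) s2.ne_zero t2 (sub_ne_zero.2 (Ne.symm hne)) q6
      ⟨1, by rw [a2, v32]⟩
    obtain ⟨rfl, rfl⟩ := hyp _ _ hk b1 b2
    rw [mul_one] at q5 q6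
    exact Or.inr (Or.inr (Or.inr ⟨q5, q6⟩))
  · have a1 := val_sqf s1 c1
    have a2 := val_ndvd (p := p) c2
    obtain ⟨t1, t2⟩ := cls_sqf hf
    have b1 := val_translate (p := p) s1.ne_zero t1 (mul_ne_zero he2 he3) q1
      ⟨2, by rw [a1, w1]⟩
    have b2 := val_translate (p := p) s2.ne_zero t2 (neg_ne_zero.2 he2) q2
      ⟨1, by rw [a2, w2]⟩
    obtain ⟨rfl, rfl⟩ := hyp _ _ hf b1 b2
    rw [mul_one] at q1 q2
    exact Or.inr (Or.inl ⟨q1, q2⟩)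
  · have a1 := val_ndvd (p := p) c1
    have a2 := val_sqf s2 c2
    obtain ⟨t1, t2⟩ := cls_sqf hg
    have b1 := val_translate (p := p) s1.ne_zero t1 he2 q3 ⟨1, by rw [a1, v2]⟩
    have b2 := val_translate (p := p) s2.ne_zero t2 (mul_ne_zero he2 hd0) q4
      ⟨2, by rw [a2, w3]⟩
    obtain ⟨rfl, rfl⟩ := hyp _ _ hg b1 b2
    rw [mul_one] at q3 q4
    exact Or.inr (Or.inr (Or.inl ⟨q3, q4⟩))
  · obtain ⟨rfl, rfl⟩ := hyp _ _ hcl c1 c2
    exact Or.inl ⟨IsSquare.one, IsSquare.one⟩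

end Pool.Agent.NJ.H93
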