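import Pool.Agent.Helper32_NJ.Stmts

/-!
# Squarefree integers supported on two or three primes
-/

set_option autoImplicit false

namespace Pool.Agent.NJ.H93

open Pool.Agent.NJ

theorem peel (d : ℤ) (hd : Squarefree d) (p : ℕ) (hp : p.Prime) :
    ∃ d' : ℤ, Squarefree d' ∧ ¬ (p : ℤ) ∣ d' ∧ (d = d' ∨ d = p * d') ∧
      ∀ l : ℤ, l ∣ d' → l ∣ d := by
  by_cases h : (p : ℤ) ∣ d
  · obtain ⟨d', rfl⟩ := h
    refine ⟨d', hd.of_mul_right, ?_, Or.inr rfl, fun l hl => hl.mul_left _⟩
    rintro ⟨e, rfl⟩
    have := hd p ⟨e, by ring⟩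
    exact hp.one_lt.ne' (by simpa using Int.isUnit_iff_natAbs_eq.1 this)
  · exact ⟨d, hd, h, Or.inl rfl, fun l hl => hl⟩

theorem unit_of (d : ℤ) (h : ∀ p : ℕ, p.Prime → ¬ (p : ℤ) ∣ d) : d = 1 ∨ d = -1 := by
  have h1 : d.natAbs = 1 := by
    by_contra h2
    obtain ⟨p, hp, hpd⟩ := Nat.exists_prime_and_dvd h2
    exact h p hp (Int.natCast_dvd.2 hpd)
  exact Int.natAbs_eq_iff.1 h1 |>.imp (fun h => by simpa using h) (fun h => by simpa using h)

/-- SQF. -/
theorem sQF : SQFStmt := by
  intro d q r hd hq hr hq2 hr2 hqr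
  obtain ⟨d1, hd1, h21, e1, l1⟩ := peel d hd 2 Nat.prime_two
  obtain ⟨d2, hd2, hq22, e2, l2⟩ := peel d1 hd1 q hq
  constructor
  · intro hsup
    have hu : d2 = 1 ∨ d2 = -1 := by
      apply unit_of
      intro p hp hpd
      rcases hsup p hp (l1 _ (l2 _ hpd)) with h | h
      · subst h
        exact h21 (l2 _ hpd)
      · subst h
        exact hq22 hpd
    refine ⟨d2, hu, ?_⟩
    rcases e1 with e1 | e1 <;> rcases e2 with e2 | e2
    · left; rw [e1, e2]
    · right; right; left; rw [e1, e2]; ring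
    · right; left; rw [e1, e2]; push_cast; ring
    · right; right; right; rw [e1, e2]; push_cast; ring
  · intro hsup
    obtain ⟨d3, hd3, hr3, e3, l3⟩ := peel d2 hd2 r hr
    have hu : d3 = 1 ∨ d3 = -1 := by
      apply unit_of
      intro p hp hpd
      rcases hsup p hp (l1 _ (l2 _ (l3 _ hpd))) with h | h | h
      · subst h
        exact h21 (l2 _ (l3 _ hpd))
      · subst h
        exact hq22 (l3 _ hpd)
      · subst h
        exact hr3 hpd
    refine ⟨d3, hu, ?_⟩
    rcases e1 with e1 | e1 <;> rcases e2 with e2 | e2 <;> rcases e3 with e3 | e3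
    · left; rw [e1, e2, e3]
    · right; right; right; right; left; rw [e1, e2, e3]; ring
    · right; right; left; rw [e1, e2, e3]; ring
    · right; right; right; right; right; right; left; rw [e1, e2, e3]; ring
    · right; left; rw [e1, e2, e3]; push_cast; ring
    · right; right; right; right; right; left; rw [e1, e2, e3]; push_cast; ring
    · right; right; right; left; rw [e1, e2, e3]; push_cast; ring
    · right; right; right; right; right; right; right; rw [e1, e2, e3]; push_cast; ring

end Pool.Agent.NJ.H93
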